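import Pool.Agent.R815.Fp.Inst

/-!
# MP_cf7953_an : `ω(A^t) ≥ ω(A)^t` for accretive matrices and `0 < t < 1`
-/

namespace Pool.Agent.Results.MP_cf7953_an.NumRadiusPow

open MeasureTheory Set

/-- `⟨A x, x⟩ = ∑ i, (A x)_i * conj (x_i)` -/
def form {n : ℕ} (A : Matrix (Fin n) (Fin n) ℂ) (x : Fin n → ℂ) : ℂ :=
  dotProduct (star x) (A.mulVec x)

/-- The numerical radius: the supremum of `|⟨A x, x⟩|` over the unit vectors `x` of `ℂ^n`. -/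
noncomputable def numRadius {n : ℕ} (A : Matrix (Fin n) (Fin n) ℂ) : ℝ :=
  sSup {r : ℝ | ∃ x : Fin n → ℂ, ∑ i, ‖x i‖ ^ 2 = 1 ∧ r = ‖form A x‖}

/-- `A` is accretive: its numerical range lies in the open right half plane. -/
def Accretive {n : ℕ} (A : Matrix (Fin n) (Fin n) ℂ) : Prop :=
  ∀ x : Fin n → ℂ, ∑ i, ‖x i‖ ^ 2 = 1 → 0 < (form A x).re

/-- The fractional power `A^t = (sin (t π) / π) ∫_0^∞ s^(t-1) A (s I + A)^(-1) ds`
(the integral is taken entry by entry). -/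
noncomputable def fracPow {n : ℕ} (A : Matrix (Fin n) (Fin n) ℂ) (t : ℝ) :
    Matrix (Fin n) (Fin n) ℂ :=
  Matrix.of fun i j => ((Real.sin (t * Real.pi) / Real.pi : ℝ) : ℂ) *
    ∫ s in Ioi (0 : ℝ), ((s ^ (t - 1) : ℝ) : ℂ) *
      (A * ((s : ℂ) • (1 : Matrix (Fin n) (Fin n) ℂ) + A)⁻¹) i j

open Pool.Agent.R815.Fp

variable {n : ℕ}

/-- the operator of a matrix -/
noncomputable abbrev op (A : Matrix (Fin n) (Fin n) ℂ) :
    EuclideanSpace ℂ (Fin n) →L[ℂ] EuclideanSpace ℂ (Fin n) :=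
  Matrix.toEuclideanCLM (n := Fin n) (𝕜 := ℂ) A

lemma inner_op (A : Matrix (Fin n) (Fin n) ℂ) (x : EuclideanSpace ℂ (Fin n)) :
    (inner ℂ x (op A x) : ℂ) = form A (WithLp.ofLp x) := by
  unfold form
  rw [EuclideanSpace.inner_eq_star_dotProduct, dotProduct_comm]
  rfl

lemma norm_eq_one_iff (x : EuclideanSpace ℂ (Fin n)) :
    ‖x‖ = 1 ↔ ∑ i, ‖(WithLp.ofLp x) i‖ ^ 2 = 1 := by
  rw [EuclideanSpace.norm_eq, Real.sqrt_eq_one]

lemma nr_op (A : Matrix (Fin n) (Fin n) ℂ) : nr (op A) = numRadius A := by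
  unfold nr numRadius
  congr 1
  ext r
  constructor
  · rintro ⟨x, hx, rfl⟩
    rw [mem_sphere_zero_iff_norm] at hx
    exact ⟨WithLp.ofLp x, (norm_eq_one_iff x).mp hx, by simp only [inner_op]⟩
  · rintro ⟨x, hx, rfl⟩
    refine ⟨WithLp.toLp 2 x, ?_, ?_⟩
    · rw [mem_sphere_zero_iff_norm, norm_eq_one_iff]
      exact hx
    · simp only [inner_op]

lemma entry_op (A : Matrix (Fin n) (Fin n) ℂ) (i j : Fin n) :
    (inner ℂ (EuclideanSpace.single i (1 : ℂ)) (op A (EuclideanSpace.single j (1 : ℂ))) : ℂ)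
      = A i j := by
  rw [EuclideanSpace.inner_single_left, map_one, one_mul]
  change (A.mulVec (Pi.single j 1)) i = A i j
  rw [Matrix.mulVec_single_one]
  rfl

lemma acc_op (hn : 0 < n) {A : Matrix (Fin n) (Fin n) ℂ} (hA : Accretive A) :
    ∃ δ : ℝ, 0 < δ ∧ δ ≤ 1 ∧ ∀ u : EuclideanSpace ℂ (Fin n),
      δ * ‖u‖ ^ 2 ≤ (inner ℂ u (op A u) : ℂ).re := by
  have : Nonempty (Fin n) := ⟨⟨0, hn⟩⟩
  have hc : IsCompact (Metric.sphere (0 : EuclideanSpace ℂ (Fin n)) 1) := isCompact_sphere 0 1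
  have hcont : ContinuousOn (fun u : EuclideanSpace ℂ (Fin n) => (inner ℂ u (op A u) : ℂ).re)
      (Metric.sphere 0 1) := by
    fun_prop
  obtain ⟨x, hx, hmin⟩ := hc.exists_isMinOn sphere_nonempty' hcont
  rw [mem_sphere_zero_iff_norm] at hx
  have hpos : 0 < (inner ℂ x (op A x) : ℂ).re := by
    rw [inner_op]
    exact hA _ ((norm_eq_one_iff x).mp hx)
  refine ⟨min (inner ℂ x (op A x) : ℂ).re 1, lt_min hpos one_pos, min_le_right _ _, ?_⟩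
  intro u
  rcases eq_or_ne u 0 with rfl | hu
  · simp
  · have hn : 0 < ‖u‖ := norm_pos_iff.mpr hu
    have h1 : ((‖u‖ : ℂ)⁻¹) • u ∈ Metric.sphere (0 : EuclideanSpace ℂ (Fin n)) 1 := by
      rw [mem_sphere_zero_iff_norm, norm_smul, norm_inv, Complex.norm_real, norm_norm]
      exact inv_mul_cancel₀ hn.ne'
    have h2 := isMinOn_iff.mp hmin _ h1
    rw [map_smul, inner_smul_left, inner_smul_right, map_inv₀, Complex.conj_ofReal,
      ← Complex.ofReal_inv, Complex.re_ofReal_mul, Complex.re_ofReal_mul] at h2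
    have h3 : ‖u‖⁻¹ * (‖u‖⁻¹ * (inner ℂ u (op A u) : ℂ).re)
        = (inner ℂ u (op A u) : ℂ).re / ‖u‖ ^ 2 := by
      field_simp
    rw [h3, le_div_iff₀ (by positivity)] at h2
    exact (mul_le_mul_of_nonneg_right (min_le_left _ _) (by positivity)).trans h2

/-- the segment matrix -/
noncomputable def Ms (A : Matrix (Fin n) (Fin n) ℂ) (s : ℝ) : Matrix (Fin n) (Fin n) ℂ :=
  ((1 - s : ℝ) : ℂ) • 1 + (s : ℂ) • A

lemma op_Ms (A : Matrix (Fin n) (Fin n) ℂ) (s : ℝ) :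
    op (Ms A s) = incl (op A) (Mx (⟨op A, self_mem_DC _⟩ : DC (op A)) s) := by
  rw [Mx_eq, real_smul_eq, real_smul_eq, map_add, map_smul, map_smul, map_one]
  unfold Ms op
  rw [map_add, map_smul, map_smul, map_one]
  rfl

lemma incl_J {A : Matrix (Fin n) (Fin n) ℂ} {m s : ℝ}
    (hg : Gd m (⟨op A, self_mem_DC _⟩ : DC (op A))) (hs : s ∈ Icc (0 : ℝ) 1) :
    Ms A s * (Ms A s)⁻¹ = 1 ∧
    incl (op A) (J (⟨op A, self_mem_DC _⟩ : DC (op A)) s) = op ((Ms A s)⁻¹) := by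
  have h1 := J_mul hg hs
  have h2 : op (Ms A s) * incl (op A) (J (⟨op A, self_mem_DC _⟩ : DC (op A)) s) = 1 := by
    rw [op_Ms, ← map_mul, h1, map_one]
  set X := (Matrix.toEuclideanCLM (n := Fin n) (𝕜 := ℂ)).symm
    (incl (op A) (J (⟨op A, self_mem_DC _⟩ : DC (op A)) s)) with hX
  have h3 : Ms A s * X = 1 := by
    have := congrArg (Matrix.toEuclideanCLM (n := Fin n) (𝕜 := ℂ)).symm h2
    rw [map_mul, map_one, StarAlgEquiv.symm_apply_apply] at this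
    exact this
  have h4 : (Ms A s)⁻¹ = X := Matrix.inv_eq_right_inv h3
  refine ⟨by rw [h4, h3], ?_⟩
  rw [h4, hX]
  exact (StarAlgEquiv.apply_symm_apply _ _).symm

lemma subst_int (t : ℝ) (G : ℝ → ℂ) :
    ∫ r in Ioi (0 : ℝ), ((r ^ (t - 1) : ℝ) : ℂ) * G r
      = ∫ s in Ioo (0 : ℝ) 1, ((w t s : ℝ) : ℂ) * (((s⁻¹ : ℝ) : ℂ) * G (s⁻¹ - 1)) := by
  have himg : (fun s : ℝ => s⁻¹ - 1) '' Ioo 0 1 = Ioi 0 := by
    ext r
    constructor
    · rintro ⟨s, hs, rfl⟩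
      have := (one_lt_inv₀ hs.1).mpr hs.2
      simp only [mem_Ioi]
      linarith
    · intro hr
      have hr' : (0 : ℝ) < r := hr
      refine ⟨(r + 1)⁻¹, ⟨by positivity, inv_lt_one_of_one_lt₀ (by linarith)⟩, ?_⟩
      simp
  have hder : ∀ s ∈ Ioo (0 : ℝ) 1, HasDerivWithinAt (fun s : ℝ => s⁻¹ - 1) (-(s ^ 2)⁻¹)
      (Ioo 0 1) s := by
    intro s hs
    exact ((hasDerivAt_inv hs.1.ne').sub_const 1).hasDerivWithinAt
  have hinj : InjOn (fun s : ℝ => s⁻¹ - 1) (Ioo 0 1) := by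
    intro x _ y _ hxy
    simp only at hxy
    have : x⁻¹ = y⁻¹ := by linarith
    exact inv_injective this
  rw [← himg, integral_image_eq_integral_abs_deriv_smul measurableSet_Ioo hder hinj]
  apply setIntegral_congr_fun measurableSet_Ioo
  intro s hs
  simp only
  have hs0 := hs.1
  have hs1 : 0 < 1 - s := by linarith [hs.2]
  have e1 : s⁻¹ - 1 = (1 - s) * s⁻¹ := by field_simp
  have e2 : (s⁻¹ - 1) ^ (t - 1) = (1 - s) ^ (t - 1) * (s⁻¹) ^ (t - 1) := by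
    rw [e1, Real.mul_rpow hs1.le (by positivity)]
  have e3 : (s⁻¹ : ℝ) ^ (t - 1) = s ^ (-t) * s := by
    rw [Real.inv_rpow hs0.le, ← Real.rpow_neg hs0.le]
    have : -(t - 1) = -t + 1 := by ring
    rw [this, Real.rpow_add_one hs0.ne']
  rw [e2, e3, abs_neg, abs_of_pos (by positivity), Complex.real_smul]
  unfold w
  push_cast
  have hsc : (s : ℂ) ≠ 0 := by exact_mod_cast hs0.ne'
  field_simp

lemma scale_inv {A : Matrix (Fin n) (Fin n) ℂ} {s : ℝ} (hs : s ≠ 0)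
    (h : Ms A s * (Ms A s)⁻¹ = 1) :
    (((s⁻¹ - 1 : ℝ) : ℂ) • (1 : Matrix (Fin n) (Fin n) ℂ) + A)⁻¹ = (s : ℂ) • (Ms A s)⁻¹ := by
  apply Matrix.inv_eq_right_inv
  have hsc : (s : ℂ) ≠ 0 := by exact_mod_cast hs
  have e1 : ((s⁻¹ - 1 : ℝ) : ℂ) • (1 : Matrix (Fin n) (Fin n) ℂ) + A = (s : ℂ)⁻¹ • Ms A s := by
    unfold Ms
    rw [smul_add, smul_smul, smul_smul, inv_mul_cancel₀ hsc, one_smul]
    congr 2
    push_cast
    field_simp
  rw [e1, smul_mul_assoc, mul_smul_comm, h, smul_smul, inv_mul_cancel₀ hsc, one_smul]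

lemma incl_bJ {A : Matrix (Fin n) (Fin n) ℂ} {m s : ℝ}
    (hg : Gd m (⟨op A, self_mem_DC _⟩ : DC (op A))) (hs : s ∈ Ioo (0 : ℝ) 1) :
    incl (op A) ((⟨op A, self_mem_DC _⟩ : DC (op A)) * J (⟨op A, self_mem_DC _⟩ : DC (op A)) s)
      = op (A * (Ms A s)⁻¹) := by
  have k2 := (incl_J hg (Ioo_subset_Icc_self hs)).2
  have k3 : op (A * (Ms A s)⁻¹) = op A * op ((Ms A s)⁻¹) :=
    map_mul (Matrix.toEuclideanCLM (n := Fin n) (𝕜 := ℂ)) A ((Ms A s)⁻¹)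
  rw [k3, ← k2]
  rfl

lemma k_lem {A : Matrix (Fin n) (Fin n) ℂ} {m s : ℝ}
    (hg : Gd m (⟨op A, self_mem_DC _⟩ : DC (op A))) (hs : s ∈ Ioo (0 : ℝ) 1) (i j : Fin n) :
    (A * (Ms A s)⁻¹) i j = ((s⁻¹ : ℝ) : ℂ) *
        (A * (((s⁻¹ - 1 : ℝ) : ℂ) • (1 : Matrix (Fin n) (Fin n) ℂ) + A)⁻¹) i j := by
  have k1 := (incl_J hg (Ioo_subset_Icc_self hs)).1
  have hsc : (s : ℂ) ≠ 0 := by exact_mod_cast hs.1.ne'
  have e1 : ((s⁻¹ : ℝ) : ℂ) * (s : ℂ) = 1 := by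
    push_cast
    exact inv_mul_cancel₀ hsc
  rw [scale_inv hs.1.ne' k1, mul_smul_comm, Matrix.smul_apply, smul_eq_mul, ← mul_assoc, e1,
    one_mul]

lemma e_lem {A : Matrix (Fin n) (Fin n) ℂ} {m s : ℝ}
    (hg : Gd m (⟨op A, self_mem_DC _⟩ : DC (op A))) (hs : s ∈ Ioo (0 : ℝ) 1) (i j : Fin n) :
    (inner ℂ (EuclideanSpace.single i (1 : ℂ))
      (incl (op A) ((⟨op A, self_mem_DC _⟩ : DC (op A)) * J (⟨op A, self_mem_DC _⟩ : DC (op A)) s)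
        (EuclideanSpace.single j (1 : ℂ))) : ℂ) = ((s⁻¹ : ℝ) : ℂ) *
        (A * (((s⁻¹ - 1 : ℝ) : ℂ) • (1 : Matrix (Fin n) (Fin n) ℂ) + A)⁻¹) i j := by
  rw [← k_lem hg hs, incl_bJ hg hs]
  exact entry_op _ i j

lemma entry_Pw {A : Matrix (Fin n) (Fin n) ℂ} {m t : ℝ} (ht0 : 0 < t) (ht1 : t < 1)
    (hg : Gd m (⟨op A, self_mem_DC _⟩ : DC (op A))) (i j : Fin n) :
    (inner ℂ (EuclideanSpace.single i (1 : ℂ))
      (incl (op A) (Pw t (⟨op A, self_mem_DC _⟩ : DC (op A))) (EuclideanSpace.single j (1 : ℂ))) : ℂ)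
      = fracPow A t i j := by
  have h1 := coeff_Pw (incl_rep (op A)) ht0 ht1 hg (EuclideanSpace.single i (1 : ℂ))
    (EuclideanSpace.single j (1 : ℂ))
  refine h1.trans ?_
  unfold fracPow
  rw [Matrix.of_apply, mul_comm t]
  refine congrArg (fun z : ℂ => ((Real.sin (Real.pi * t) / Real.pi : ℝ) : ℂ) * z) ?_
  refine (setIntegral_congr_fun measurableSet_Ioo fun s hs => ?_).trans
    (subst_int t fun r => (A * ((r : ℂ) • (1 : Matrix (Fin n) (Fin n) ℂ) + A)⁻¹) i j).symm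
  exact congrArg (fun z : ℂ => ((w t s : ℝ) : ℂ) * z) (e_lem hg hs i j)

lemma incl_Pw {A : Matrix (Fin n) (Fin n) ℂ} {m t : ℝ} (ht0 : 0 < t) (ht1 : t < 1)
    (hg : Gd m (⟨op A, self_mem_DC _⟩ : DC (op A))) :
    incl (op A) (Pw t (⟨op A, self_mem_DC _⟩ : DC (op A))) = op (fracPow A t) := by
  obtain ⟨X, hX⟩ : ∃ X, op X = incl (op A) (Pw t (⟨op A, self_mem_DC _⟩ : DC (op A))) :=
    ⟨(Matrix.toEuclideanCLM (n := Fin n) (𝕜 := ℂ)).symm _, StarAlgEquiv.apply_symm_apply _ _⟩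
  have h2 : X = fracPow A t := by
    ext i j
    rw [← entry_Pw ht0 ht1 hg i j, ← hX]
    exact (entry_op X i j).symm
  rw [← hX, h2]

/-- **Main result.** For every `n ≥ 1`, every accretive `A ∈ M_n(ℂ)` and every `0 < t < 1` one has
`ω(A^t) ≥ ω(A)^t`. -/
theorem result (n : ℕ) (hn : 0 < n) (A : Matrix (Fin n) (Fin n) ℂ) (hA : Accretive A) (t : ℝ)
    (ht0 : 0 < t) (ht1 : t < 1) : numRadius A ^ t ≤ numRadius (fracPow A t) := by
  have : Nonempty (Fin n) := ⟨⟨0, hn⟩⟩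
  obtain ⟨δ, hδ0, hδ1, hδ⟩ := acc_op hn hA
  have h1 : nr (op A) ^ t ≤ nr (incl (op A) (Pw t (⟨op A, self_mem_DC _⟩ : DC (op A)))) :=
    main_op hδ0 hδ1 hδ ht0 ht1
  have hacc : Acc (incl (op A)) δ (⟨op A, self_mem_DC _⟩ : DC (op A)) := hδ
  have hg : Gd (1 / δ) (⟨op A, self_mem_DC _⟩ : DC (op A)) :=
    Acc.gd (incl_rep (op A)) hδ0 hδ1 hacc
  have h2 := congrArg nr (incl_Pw ht0 ht1 hg)
  have h3 := nr_op A
  have h4 := nr_op (fracPow A t)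
  exact ((congrArg (fun z : ℝ => z ^ t) h3).symm.le.trans h1).trans (h2.trans h4).le

end Pool.Agent.Results.MP_cf7953_an.NumRadiusPow
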